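import Pool.Agent.H9.KR.Lo
import Pool.Agent.H9.KR.Up

/-!
Random graph estimates for the project RG (helper82): common neighbourhoods and dispersion.
-/

set_option autoImplicit false
set_option linter.unusedSectionVars false

open Finset

namespace Pool.Agent.H82.RG

open Pool.Agent.H9.KR

variable {Ω E : Type} [Fintype Ω] [DecidableEq E]

open Classical in
/-- The set of indices whose blocks are contained in a random set is a random set. -/
theorem rsub_blocks {w : Ω → ℝ} {R : Ω → Finset E} {E₀ : Finset E} {p : ℝ} (h : RSub w R E₀ p)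
    {ι : Type} [DecidableEq ι] (I : Finset ι) (A : ι → Finset E) (s : ℕ)
    (hA : ∀ i ∈ I, A i ⊆ E₀) (hs : ∀ i ∈ I, (A i).card = s)
    (hdis : ∀ i ∈ I, ∀ j ∈ I, i ≠ j → Disjoint (A i) (A j)) :
    RSub w (fun o => I.filter fun i => A i ⊆ R o) I (p ^ s) := by
  refine ⟨h.nonneg, fun B hB => ?_⟩
  have h1 : (B.biUnion A).card = s * B.card := by
    rw [card_biUnion fun i hi j hj hij => hdis i (hB hi) j (hB hj) hij,
      sum_congr rfl fun i hi => hs i (hB hi), sum_const, smul_eq_mul, mul_comm]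
  have h2 := h.hit (B.biUnion A) (biUnion_subset.2 fun i hi => hA i (hB hi))
  rw [h1, pow_mul] at h2
  rw [← h2]
  unfold pr
  refine sum_congr rfl fun o _ => ?_
  have h3 : (B ⊆ I.filter fun i => A i ⊆ R o) ↔ B.biUnion A ⊆ R o := by
    rw [biUnion_subset]
    constructor
    · exact fun h4 i hi => (mem_filter.1 (h4 hi)).2
    · exact fun h4 i hi => mem_filter.2 ⟨hB hi, h4 i hi⟩
  by_cases h4 : B.biUnion A ⊆ R o
  · rw [if_pos h4, if_pos (h3.2 h4)]
  · rw [if_neg h4, if_neg fun h5 => h4 (h3.1 h5)]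

variable {V : Type} [DecidableEq V]

/-- The pairs between a vertex and a set of vertices. -/
def star (v : V) (S : Finset V) : Finset (Sym2 V) := S.image fun u => s(v, u)

theorem mem_star {v : V} {S : Finset V} {e : Sym2 V} : e ∈ star v S ↔ ∃ u ∈ S, s(v, u) = e := by
  simp [star]

theorem card_star {v : V} {S : Finset V} (hv : v ∉ S) : (star v S).card = S.card := by
  refine card_image_of_injOn ?_
  intro a ha b hb hab
  have h1 := Sym2.eq_iff.1 hab
  rcases h1 with ⟨_, h1⟩ | ⟨h1, h2⟩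
  · exact h1
  · exact absurd (h1 ▸ (mem_coe.1 hb)) hv

/-- The pairs between two sets of vertices. -/
def pr2 (A B : Finset V) : Finset (Sym2 V) := (A ×ˢ B).image fun x => s(x.1, x.2)

theorem mem_pr2 {A B : Finset V} {e : Sym2 V} : e ∈ pr2 A B ↔ ∃ a ∈ A, ∃ b ∈ B, s(a, b) = e := by
  simp [pr2, and_assoc]

theorem card_pr2 {A B : Finset V} (h : Disjoint A B) : (pr2 A B).card = A.card * B.card := by
  rw [pr2, card_image_of_injOn, card_product]
  intro x hx y hy hxy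
  rw [mem_coe, mem_product] at hx hy
  rcases Sym2.eq_iff.1 hxy with ⟨h1, h2⟩ | ⟨h1, h2⟩
  · exact Prod.ext h1 h2
  · exact absurd hy.2 (h1 ▸ disjoint_left.1 h hx.1)

open Classical in
/-- Upper tail for the number of common neighbours. -/
theorem cn_upper {w : Ω → ℝ} {R : Ω → Finset (Sym2 V)} {E₀ : Finset (Sym2 V)} {p : ℝ} (h : RSub w R E₀ p)
    (hp0 : 0 ≤ p) (U S : Finset V) (hUS : Disjoint U S) (hE : ∀ u ∈ U, ∀ s ∈ S, s(u, s) ∈ E₀) (t : ℝ) (ht0 : 0 < t)
    (ht : 8 * (p ^ S.card * U.card) ≤ t) :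
    pr w (fun o => t ≤ ((U.filter fun u => ∀ s ∈ S, s(u, s) ∈ R o).card : ℝ)) ≤ Real.exp (-t) := by
  have h1 := rsub_blocks h U (fun u => star u S) S.card
    (fun u hu e he => by
      obtain ⟨s, hs, rfl⟩ := mem_star.1 he
      exact hE u hu s hs)
    (fun u hu => card_star (disjoint_left.1 hUS hu))
    (fun u hu v hv huv => by
      rw [disjoint_left]
      intro e he he'
      obtain ⟨s, hs, rfl⟩ := mem_star.1 he
      obtain ⟨s', hs', h2⟩ := mem_star.1 he'
      rcases Sym2.eq_iff.1 h2 with ⟨h3, _⟩ | ⟨h3, _⟩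
      · exact huv h3.symm
      · exact disjoint_left.1 hUS hv (h3 ▸ hs))
  have h2 := upper h1 (pow_nonneg hp0 _) U (Subset.refl _) t ht0 ht
  refine le_trans (pr_mono h.nonneg fun o ho => ?_) h2
  refine ho.trans (Nat.cast_le.2 (card_le_card fun u hu => ?_))
  rw [mem_filter] at hu
  rw [mem_inter, mem_filter]
  refine ⟨⟨hu.1, fun e he => ?_⟩, hu.1⟩
  obtain ⟨s, hs, rfl⟩ := mem_star.1 he
  exact hu.2 s hs

open Classical in
/-- Lower tail for the number of common neighbours. -/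
theorem cn_lower {w : Ω → ℝ} {R : Ω → Finset (Sym2 V)} {E₀ : Finset (Sym2 V)} {p : ℝ} (h : RSub w R E₀ p)
    (hp0 : 0 ≤ p) (hp1 : p ≤ 1) (U S : Finset V) (hUS : Disjoint U S) (hE : ∀ u ∈ U, ∀ s ∈ S, s(u, s) ∈ E₀) (y : ℝ)
    (hy : y ≤ p ^ S.card * U.card / 2) :
    pr w (fun o => ((U.filter fun u => ∀ s ∈ S, s(u, s) ∈ R o).card : ℝ) ≤ y) ≤
      Real.exp (-(p ^ S.card * U.card / 8)) := by
  have h2 := lower h hp0 hp1 U (fun u => star u S)
    (fun u hu e he => by
      obtain ⟨s, hs, rfl⟩ := mem_star.1 he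
      exact hE u hu s hs)
    (fun u hu v hv huv => by
      rw [disjoint_left]
      intro e he he'
      obtain ⟨s, hs, rfl⟩ := mem_star.1 he
      obtain ⟨s', hs', h2⟩ := mem_star.1 he'
      rcases Sym2.eq_iff.1 h2 with ⟨h3, _⟩ | ⟨h3, _⟩
      · exact huv h3.symm
      · exact disjoint_left.1 hUS hv (h3 ▸ hs))
    (p ^ S.card) (pow_nonneg hp0 _) (fun u hu => by rw [card_star (disjoint_left.1 hUS hu)]) y hy
  refine le_trans (pr_mono h.nonneg fun o ho => ?_) h2
  refine le_trans (Nat.cast_le.2 (card_le_card fun u hu => ?_)) ho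
  rw [mem_filter] at hu
  rw [mem_filter]
  exact ⟨hu.1, fun s hs => hu.2 (mem_star.2 ⟨s, hs, rfl⟩)⟩

open Classical in
/-- Dispersion: `t` disjoint sets on one side and `t` disjoint sets on the other side, no complete pair. -/
theorem disp_pr {w : Ω → ℝ} {R : Ω → Finset (Sym2 V)} {E₀ : Finset (Sym2 V)} {p : ℝ} (h : RSub w R E₀ p)
    (hp0 : 0 ≤ p) (hp1 : p ≤ 1) (t m g : ℕ) (xs ys : Fin t → Finset V)
    (hx : ∀ r, (xs r).card = m) (hy : ∀ i, (ys i).card = g)
    (hxd : ∀ r r', r ≠ r' → Disjoint (xs r) (xs r')) (hyd : ∀ i i', i ≠ i' → Disjoint (ys i) (ys i'))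
    (hxy : ∀ r i, Disjoint (xs r) (ys i)) (hE : ∀ r i, ∀ u ∈ xs r, ∀ v ∈ ys i, s(u, v) ∈ E₀)
    (hmg : 0 < m * g) :
    pr w (fun o => ∀ r i, ∃ u ∈ xs r, ∃ v ∈ ys i, s(u, v) ∉ R o) ≤ Real.exp (-(p ^ (m * g) * t ^ 2 / 8)) := by
  have hm : 0 < m := Nat.pos_of_mul_pos_right hmg
  have hg : 0 < g := Nat.pos_of_mul_pos_left hmg
  have h2 := lower h hp0 hp1 (univ : Finset (Fin t × Fin t)) (fun ri => pr2 (xs ri.1) (ys ri.2))
    (fun ri _ e he => by
      obtain ⟨u, hu, v, hv, rfl⟩ := mem_pr2.1 he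
      exact hE _ _ u hu v hv)
    (fun ri _ ri' _ hne => by
      rw [disjoint_left]
      intro e he he'
      obtain ⟨u, hu, v, hv, rfl⟩ := mem_pr2.1 he
      obtain ⟨u', hu', v', hv', h2⟩ := mem_pr2.1 he'
      rcases Sym2.eq_iff.1 h2 with ⟨h3, h4⟩ | ⟨h3, h4⟩
      · by_cases h5 : ri.1 = ri'.1
        · have h6 : ri.2 ≠ ri'.2 := fun h7 => hne (Prod.ext h5 h7)
          exact disjoint_left.1 (hyd _ _ h6) hv (h4 ▸ hv')
        · exact disjoint_left.1 (hxd _ _ h5) hu (h3 ▸ hu')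
      · exact disjoint_left.1 (hxy _ _) hu' (h3.symm ▸ hv))
    (p ^ (m * g)) (pow_nonneg hp0 _) (fun ri _ => by rw [card_pr2 (hxy _ _), hx, hy]) 0
    (by positivity)
  refine le_trans (pr_mono h.nonneg ?_) (h2.trans (le_of_eq ?_))
  · intro o ho
    have h3 : (univ.filter fun ri : Fin t × Fin t => pr2 (xs ri.1) (ys ri.2) ⊆ R o) = ∅ := by
      rw [filter_eq_empty_iff]
      intro ri _ h4
      obtain ⟨u, hu, v, hv, h5⟩ := ho ri.1 ri.2
      exact h5 (h4 (mem_pr2.2 ⟨u, hu, v, hv, rfl⟩))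
    have h4 : ((univ.filter fun ri : Fin t × Fin t => pr2 (xs ri.1) (ys ri.2) ⊆ R o).card : ℝ) ≤ 0 := by
      rw [h3]; simp
    exact h4
  · congr 1
    rw [card_univ, Fintype.card_prod, Fintype.card_fin]
    push_cast
    ring

end Pool.Agent.H82.RG
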