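import Pool.Agent.H82.RG.Prob

/-!
Project RG (helper82): union bounds for the two graph properties.
-/

set_option autoImplicit false
set_option linter.unusedSectionVars false

open Finset

namespace Pool.Agent.H82.RG

open Pool.Agent.H9.KR

variable {Ω V : Type} [Fintype Ω] [Fintype V] [DecidableEq V]

open Classical in
/-- The number of common neighbours of `S` in `U`. -/
noncomputable def cnb (R : Finset (Sym2 V)) (U S : Finset V) : ℕ := (U.filter fun u => ∀ s ∈ S, s(u, s) ∈ R).card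

theorem card_small_sets (s : ℕ) (hV : 0 < Fintype.card V) :
    ((univ.filter fun S : Finset V => S.card ≤ s).card : ℝ) ≤ (s + 1) * (Fintype.card V : ℝ) ^ s := by
  have h1 : (univ.filter fun S : Finset V => S.card ≤ s) ⊆
      (range (s + 1)).biUnion fun j => powersetCard j (univ : Finset V) := by
    intro S hS
    rw [mem_filter] at hS
    rw [mem_biUnion]
    exact ⟨S.card, mem_range.2 (by omega), mem_powersetCard.2 ⟨subset_univ _, rfl⟩⟩
  have h2 : (univ.filter fun S : Finset V => S.card ≤ s).card ≤ (s + 1) * (Fintype.card V) ^ s := by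
    refine (card_le_card h1).trans (card_biUnion_le.trans ?_)
    refine (sum_le_card_nsmul (range (s + 1)) _ ((Fintype.card V) ^ s) fun j hj => ?_).trans ?_
    · rw [card_powersetCard, card_univ]
      exact (Nat.choose_le_pow _ _).trans (Nat.pow_le_pow_right hV (by have := mem_range.1 hj; omega))
    · rw [card_range, smul_eq_mul]
  exact_mod_cast h2

open Classical in
/-- Regularity of all common neighbourhoods, uniformly. -/
theorem reg_unif {w : Ω → ℝ} {R : Ω → Finset (Sym2 V)} {E₀ : Finset (Sym2 V)} {p : ℝ} (h : RSub w R E₀ p)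
    (hp0 : 0 < p) (hp1 : p ≤ 1) {ι : Type} (I : Finset ι) (U : ι → Finset V) (n s : ℕ) (hn : 0 < n)
    (hV : 0 < Fintype.card V) (hU : ∀ i ∈ I, (U i).card = n) (hE : ∀ u v : V, u ≠ v → s(u, v) ∈ E₀) :
    pr w (fun o => ∃ i ∈ I, ∃ S : Finset V, Disjoint (U i) S ∧ S.card ≤ s ∧
      ((cnb (R o) (U i) S : ℝ) ≤ n * p ^ S.card / 2 ∨ 8 * (n * p ^ S.card) ≤ (cnb (R o) (U i) S : ℝ))) ≤
      I.card * ((s + 1) * (Fintype.card V : ℝ) ^ s * (2 * Real.exp (-(n * p ^ s / 8)))) := by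
  have hw := h.nonneg
  refine pr_exists_le_card hw I _ _ fun i hi => ?_
  have h1 := pr_exists_le_card hw (univ.filter fun S : Finset V => S.card ≤ s) (fun S o => Disjoint (U i) S ∧
      ((cnb (R o) (U i) S : ℝ) ≤ n * p ^ S.card / 2 ∨ 8 * (n * p ^ S.card) ≤ (cnb (R o) (U i) S : ℝ)))
      (2 * Real.exp (-(n * p ^ s / 8))) fun S hS => ?_
  · refine (pr_mono hw ?_).trans (h1.trans (mul_le_mul_of_nonneg_right (card_small_sets s hV) (by positivity)))
    rintro o ⟨S, h2, h3, h4⟩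
    exact ⟨S, mem_filter.2 ⟨mem_univ _, h3⟩, h2, h4⟩
  · have hS' : S.card ≤ s := (mem_filter.1 hS).2
    by_cases hd : Disjoint (U i) S
    · have hE' : ∀ u ∈ U i, ∀ s ∈ S, s(u, s) ∈ E₀ := fun u hu s hs => hE u s fun h => disjoint_left.1 hd hu (h ▸ hs)
      have hn' : (0 : ℝ) < n := Nat.cast_pos.2 hn
      have hps : p ^ s ≤ p ^ S.card := pow_le_pow_of_le_one hp0.le hp1 hS'
      have hpp : 0 < p ^ S.card := pow_pos hp0 _
      have e1 := cn_lower h hp0.le hp1 (U i) S hd hE' (n * p ^ S.card / 2) (by rw [hU i hi]; linarith)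
      have e2 := cn_upper h hp0.le (U i) S hd hE' (8 * (n * p ^ S.card)) (by positivity) (by rw [hU i hi]; linarith)
      have e3 : Real.exp (-(p ^ S.card * (U i).card / 8)) ≤ Real.exp (-(n * p ^ s / 8)) := by
        rw [Real.exp_le_exp, hU i hi]
        nlinarith
      have e4 : Real.exp (-(8 * (n * p ^ S.card))) ≤ Real.exp (-(n * p ^ s / 8)) := by
        rw [Real.exp_le_exp]
        have h6 : (n : ℝ) * p ^ s ≤ n * p ^ S.card := mul_le_mul_of_nonneg_left hps hn'.le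
        have h7 : (0 : ℝ) ≤ n * p ^ S.card := by positivity
        linarith
      refine (pr_mono hw ?_).trans ((pr_or_le hw _ _).trans ((add_le_add (e1.trans e3) (e2.trans e4)).trans
        (le_of_eq (by ring))))
      rintro o ⟨_, h5⟩
      unfold cnb at h5
      convert h5
    · have h2 : pr w (fun o => Disjoint (U i) S ∧
          ((cnb (R o) (U i) S : ℝ) ≤ n * p ^ S.card / 2 ∨ 8 * (n * p ^ S.card) ≤ (cnb (R o) (U i) S : ℝ))) = 0 := by
        unfold pr
        refine sum_eq_zero fun o _ => ?_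
        rw [if_neg fun h => hd h.1]
      rw [h2]
      positivity

open Classical in
/-- Dispersion for one set of rows `T` and one size `g`, uniformly. -/
theorem disp_unif {w : Ω → ℝ} {R : Ω → Finset (Sym2 V)} {E₀ : Finset (Sym2 V)} {p : ℝ} (h : RSub w R E₀ p)
    (hp0 : 0 ≤ p) (hp1 : p ≤ 1) {L : ℕ} (U : Fin L → Finset V) (hUd : ∀ j j', j ≠ j' → Disjoint (U j) (U j'))
    (T : Finset (Fin L)) (t g : ℕ) (hE : ∀ u v : V, u ≠ v → s(u, v) ∈ E₀) (hTg : 0 < T.card * g) :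
    pr w (fun o => ∃ (xs : Fin t → Fin L → V) (ys : Fin t → Finset V), (∀ r, ∀ j ∈ T, xs r j ∈ U j) ∧
      (∀ r r', r ≠ r' → ∀ j ∈ T, xs r j ≠ xs r' j) ∧ (∀ i, (ys i).card = g) ∧
      (∀ i i', i ≠ i' → Disjoint (ys i) (ys i')) ∧ (∀ i, ∀ j ∈ T, Disjoint (U j) (ys i)) ∧
      ∀ r i, ∃ j ∈ T, ∃ v ∈ ys i, s(xs r j, v) ∉ R o) ≤
      (((Fintype.card V : ℝ) ^ L) ^ t * ((Fintype.card V : ℝ) ^ g) ^ t) * Real.exp (-(p ^ (T.card * g) * t ^ 2 / 8)) := by
  have hw := h.nonneg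
  have hc : (((univ : Finset (Fin t → Fin L → V)) ×ˢ (Fintype.piFinset fun _ : Fin t => powersetCard g (univ : Finset V))).card : ℝ)
      ≤ (((Fintype.card V : ℝ) ^ L) ^ t * ((Fintype.card V : ℝ) ^ g) ^ t) := by
    rw [card_product, card_univ, Fintype.card_piFinset]
    push_cast
    refine mul_le_mul (le_of_eq ?_) ?_ (by positivity) (by positivity)
    · rw [Fintype.card_fun, Fintype.card_fun, Fintype.card_fin, Fintype.card_fin]
      push_cast
      rfl
    · rw [prod_const, card_univ, Fintype.card_fin]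
      refine pow_le_pow_left₀ (Nat.cast_nonneg _) ?_ t
      rw [card_powersetCard, card_univ]
      exact_mod_cast Nat.choose_le_pow _ _
  refine le_trans ?_ (mul_le_mul_of_nonneg_right hc (Real.exp_pos _).le)
  refine le_trans (pr_mono hw ?_) (pr_exists_le_card hw _ (fun x o => (∀ r, ∀ j ∈ T, x.1 r j ∈ U j) ∧
      (∀ r r', r ≠ r' → ∀ j ∈ T, x.1 r j ≠ x.1 r' j) ∧ (∀ i, (x.2 i).card = g) ∧
      (∀ i i', i ≠ i' → Disjoint (x.2 i) (x.2 i')) ∧ (∀ i, ∀ j ∈ T, Disjoint (U j) (x.2 i)) ∧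
      ∀ r i, ∃ j ∈ T, ∃ v ∈ x.2 i, s(x.1 r j, v) ∉ R o) (Real.exp (-(p ^ (T.card * g) * t ^ 2 / 8))) ?_)
  · rintro o ⟨xs, ys, h1, h2, h3, h4, h5, h6⟩
    refine ⟨(xs, ys), ?_, h1, h2, h3, h4, h5, h6⟩
    rw [mem_product, Fintype.mem_piFinset]
    exact ⟨mem_univ _, fun i => mem_powersetCard.2 ⟨subset_univ _, h3 i⟩⟩
  · rintro ⟨xs, ys⟩ _
    simp only
    by_cases hg : (∀ r, ∀ j ∈ T, xs r j ∈ U j) ∧ (∀ r r', r ≠ r' → ∀ j ∈ T, xs r j ≠ xs r' j) ∧
      (∀ i, (ys i).card = g) ∧ (∀ i i', i ≠ i' → Disjoint (ys i) (ys i')) ∧ (∀ i, ∀ j ∈ T, Disjoint (U j) (ys i))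
    · obtain ⟨h1, h2, h3, h4, h5⟩ := hg
      have hinj : ∀ r, Set.InjOn (xs r) T := by
        intro r j hj j' hj' hjj
        by_contra hne
        exact disjoint_left.1 (hUd j j' hne) (h1 r j hj) (hjj ▸ h1 r j' hj')
      refine le_trans (pr_mono hw ?_) (disp_pr h hp0 hp1 t T.card g (fun r => T.image (xs r)) ys
        (fun r => card_image_of_injOn (hinj r)) h3 (fun r r' hr => ?_) h4 (fun r i => ?_) (fun r i u hu v hv => ?_) hTg)
      · rintro o ⟨_, _, _, _, _, h6⟩ r i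
        obtain ⟨j, hj, v, hv, h7⟩ := h6 r i
        exact ⟨xs r j, mem_image_of_mem _ hj, v, hv, h7⟩
      · rw [disjoint_left]
        intro u hu hu'
        obtain ⟨j, hj, rfl⟩ := mem_image.1 hu
        obtain ⟨j', hj', h7⟩ := mem_image.1 hu'
        by_cases hjj : j = j'
        · subst hjj
          exact h2 r r' hr j hj h7.symm
        · exact disjoint_left.1 (hUd j j' hjj) (h1 r j hj) (h7 ▸ h1 r' j' hj')
      · rw [disjoint_left]
        intro u hu hu'
        obtain ⟨j, hj, rfl⟩ := mem_image.1 hu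
        exact disjoint_left.1 (h5 i j hj) (h1 r j hj) hu'
      · obtain ⟨j, hj, rfl⟩ := mem_image.1 hu
        refine hE _ _ ?_
        rintro rfl
        exact disjoint_left.1 (h5 i j hj) (h1 r j hj) hv
    · have h2 : pr w (fun o => (∀ r, ∀ j ∈ T, xs r j ∈ U j) ∧
          (∀ r r', r ≠ r' → ∀ j ∈ T, xs r j ≠ xs r' j) ∧ (∀ i, (ys i).card = g) ∧
          (∀ i i', i ≠ i' → Disjoint (ys i) (ys i')) ∧ (∀ i, ∀ j ∈ T, Disjoint (U j) (ys i)) ∧
          ∀ r i, ∃ j ∈ T, ∃ v ∈ ys i, s(xs r j, v) ∉ R o) = 0 := by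
        unfold pr
        refine sum_eq_zero fun o _ => ?_
        rw [if_neg fun hh => hg ⟨hh.1, hh.2.1, hh.2.2.1, hh.2.2.2.1, hh.2.2.2.2.1⟩]
      rw [h2]
      positivity

end Pool.Agent.H82.RG
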