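import Pool.Agent.H82.RG.Ext

/-!
Project RG (helper82): the binomial random graph on a subset of the vertices.
-/

set_option autoImplicit false
set_option linter.unusedSectionVars false

open Finset

namespace Pool.Agent.H82.RG

open Pool.Agent.H9.KR

section law

variable {Ω E : Type} [Fintype Ω] [DecidableEq E]

theorem rsub_law0 {w : Ω → ℝ} {R : Ω → Finset E} {E₀ : Finset E} {p : ℝ} (h : RSub w R E₀ p)
    (T : Finset E) : ∀ S : Finset E, S ⊆ E₀ → T ⊆ E₀ → Disjoint S T →
    pr w (fun o => S ⊆ R o ∧ Disjoint T (R o)) = p ^ S.card * (1 - p) ^ T.card := by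
  classical
  induction T using Finset.induction_on with
  | empty =>
    intro S hS _ _
    rw [card_empty, pow_zero, mul_one, ← h.hit S hS]
    unfold pr
    refine sum_congr rfl fun o _ => ?_
    simp
  | insert e T he ih =>
    intro S hS hT hST
    have heS : e ∉ S := fun h1 => disjoint_left.1 hST h1 (mem_insert_self e T)
    have hT' : T ⊆ E₀ := (subset_insert e T).trans hT
    have e1 := ih S hS hT' (hST.mono_right (subset_insert e T))
    have e2 := ih (insert e S) (insert_subset (hT (mem_insert_self e T)) hS) hT' (by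
      rw [disjoint_insert_left]
      exact ⟨he, hST.mono_right (subset_insert e T)⟩)
    have e3 : pr w (fun o => S ⊆ R o ∧ Disjoint (insert e T) (R o)) =
        pr w (fun o => S ⊆ R o ∧ Disjoint T (R o)) - pr w (fun o => insert e S ⊆ R o ∧ Disjoint T (R o)) := by
      unfold pr
      rw [← sum_sub_distrib]
      refine sum_congr rfl fun o _ => ?_
      simp only [disjoint_insert_left, insert_subset_iff]
      by_cases h1 : e ∈ R o <;> by_cases h2 : S ⊆ R o <;> by_cases h3 : Disjoint T (R o) <;> simp [h1, h2, h3]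
    rw [e3, e1, e2, card_insert_of_notMem heS, card_insert_of_notMem he]
    ring

theorem rsub_law {w : Ω → ℝ} {R : Ω → Finset E} {E₀ : Finset E} {p : ℝ} (h : RSub w R E₀ p)
    (hR : ∀ o, R o ⊆ E₀) (S : Finset E) (hS : S ⊆ E₀) :
    pr w (fun o => R o = S) = p ^ S.card * (1 - p) ^ (E₀ \ S).card := by
  classical
  rw [← rsub_law0 h (E₀ \ S) S hS sdiff_subset disjoint_sdiff]
  unfold pr
  refine sum_congr rfl fun o _ => ?_
  have h1 : R o = S ↔ S ⊆ R o ∧ Disjoint (E₀ \ S) (R o) := by
    constructor
    · rintro rfl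
      exact ⟨Subset.refl _, sdiff_disjoint⟩
    · rintro ⟨h2, h3⟩
      refine Subset.antisymm (fun e he => ?_) h2
      by_contra h4
      exact disjoint_left.1 h3 (mem_sdiff.2 ⟨hR o he, h4⟩) he
  by_cases h2 : R o = S
  · rw [if_pos h2, if_pos (h1.1 h2)]
  · rw [if_neg h2, if_neg fun h3 => h2 (h1.2 h3)]

theorem pr_eq_sum {w : Ω → ℝ} {R : Ω → Finset E} {E₀ : Finset E} {p : ℝ} (h : RSub w R E₀ p)
    (hR : ∀ o, R o ⊆ E₀) (Q : Finset E → Prop) [DecidablePred Q] :
    pr w (fun o => Q (R o)) = ∑ S ∈ E₀.powerset with Q S, p ^ S.card * (1 - p) ^ (E₀ \ S).card := by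
  classical
  rw [sum_congr rfl fun S hS => (rsub_law h hR S (mem_powerset.1 (mem_filter.1 hS).1)).symm]
  unfold pr
  rw [sum_comm]
  refine sum_congr rfl fun o _ => ?_
  by_cases h1 : Q (R o)
  · rw [if_pos h1, sum_eq_single (R o)]
    · rw [if_pos rfl]
    · intro S _ hS
      rw [if_neg fun h2 => hS h2.symm]
    · intro h2
      exact absurd (mem_filter.2 ⟨mem_powerset.2 (hR o), h1⟩) h2
  · rw [if_neg h1]
    symm
    refine sum_eq_zero fun S hS => ?_
    rw [if_neg]
    rintro rfl
    exact h1 (mem_filter.1 hS).2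

theorem pr_unique {Ω' : Type} [Fintype Ω'] {w : Ω → ℝ} {R : Ω → Finset E} {w' : Ω' → ℝ} {R' : Ω' → Finset E}
    {E₀ : Finset E} {p : ℝ} (h : RSub w R E₀ p) (h' : RSub w' R' E₀ p)
    (hR : ∀ o, R o ⊆ E₀) (hR' : ∀ o, R' o ⊆ E₀) (Q : Finset E → Prop) :
    pr w (fun o => Q (R o)) = pr w' (fun o => Q (R' o)) := by
  classical
  rw [pr_eq_sum h hR Q, pr_eq_sum h' hR' Q]

end law

section graph

variable {V W : Type} [Fintype V] [DecidableEq V] [Fintype W] [DecidableEq W]

/-- The graph with the given pairs as edges, pulled back to a smaller set of vertices. -/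
def back (f : V ↪ W) (S : Finset (Sym2 W)) : SimpleGraph V :=
  (SimpleGraph.fromEdgeSet (↑S : Set (Sym2 W))).comap f

theorem back_ed (f : V ↪ W) (G : SimpleGraph W) : back f (ed G) = G.comap f := by
  unfold back
  congr 1
  ext u v
  rw [SimpleGraph.fromEdgeSet_adj, Finset.mem_coe, mem_ed]
  exact ⟨fun h => h.1, fun h => ⟨h, h.ne⟩⟩

theorem back_big (f : V ↪ W) (o : SimpleGraph V × Finset (Sym2 W)) : back f (big f o) = o.1 := by
  unfold back
  ext u v
  rw [SimpleGraph.comap_adj, SimpleGraph.fromEdgeSet_adj, Finset.mem_coe, mem_big]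
  exact ⟨fun h => h.1, fun h => ⟨h, fun h2 => h.ne (f.injective h2)⟩⟩

/-- The subgraph of the binomial random graph on a part of the vertices is a binomial random graph. -/
theorem binom_comap (f : V ↪ W) (p : unitInterval) (P : SimpleGraph V → Prop) :
    (SimpleGraph.binomialRandom W p).real {G | P (G.comap f)} =
      (SimpleGraph.binomialRandom V p).real {G | P G} := by
  rw [← pr_big (V := V) (W := W) p P, real_eq_pr p]
  have h1 := pr_unique (rsub_gnp (V := W) p) (rsub_big f p) gnp_ed_sub (big_sub f) (fun S => P (back f S))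
  have h2 : (fun G : SimpleGraph W => P (back f (ed G))) = fun G => P (G.comap f) := by
    funext G
    rw [back_ed]
  have h3 : (fun o : SimpleGraph V × Finset (Sym2 W) => P (back f (big f o))) = fun o => P o.1 := by
    funext o
    rw [back_big]
  rw [h2, h3] at h1
  exact h1

end graph

end Pool.Agent.H82.RG
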