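import Pool.Agent.H82.RC.Defs

/-!
Project RG (helper82): counting cliques of one player from the sizes of common neighbourhoods.
-/

set_option autoImplicit false
set_option linter.unusedSectionVars false

open Finset

namespace Pool.Agent.H82.RG

open Pool.Agent.H82.RC

variable {R m : ℕ} {α : Type} [Fintype α] [DecidableEq α]

/-- Regularity of the graph: common neighbourhoods of at most `s` vertices have the right size up to a factor 8. -/
def REG (E : Rel R m α) (p : ℝ) (s : ℕ) : Prop :=
  ∀ (P : Pos R m) (S : Finset (Pos R m × α)), (∀ u ∈ S, u.1 ≠ P) → S.card ≤ s →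
    (Fintype.card α : ℝ) * p ^ S.card / 8 ≤ ((univ.filter fun c : α => ∀ u ∈ S, E P c u.1 u.2 = true).card : ℝ) ∧
    ((univ.filter fun c : α => ∀ u ∈ S, E P c u.1 u.2 = true).card : ℝ) ≤ 8 * (Fintype.card α * p ^ S.card)

open Classical in
/-- Partial natural sets. -/
noncomputable def Pa (E : Rel R m α) (a : Fin R) (U : Finset (Fin m)) (al : Tup m α) (S : Fin m → Finset (Pos R m × α))
    (T : Finset (Fin m)) : Finset (Tup m α) :=
  univ.filter fun z => (∀ i, i ∉ T → z i = al i) ∧
    (∀ i ∈ U ∪ T, ∀ j ∈ U ∪ T, i ≠ j → E (a, i) (z i) (a, j) (z j) = true) ∧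
    ∀ i ∈ T, ∀ s ∈ S i, E (a, i) (z i) s.1 s.2 = true

open Classical in
theorem mem_Pa {E : Rel R m α} {a : Fin R} {U : Finset (Fin m)} {al : Tup m α} {S : Fin m → Finset (Pos R m × α)}
    {T : Finset (Fin m)} {z : Tup m α} : z ∈ Pa E a U al S T ↔ (∀ i, i ∉ T → z i = al i) ∧
    (∀ i ∈ U ∪ T, ∀ j ∈ U ∪ T, i ≠ j → E (a, i) (z i) (a, j) (z j) = true) ∧
    ∀ i ∈ T, ∀ s ∈ S i, E (a, i) (z i) s.1 s.2 = true := by
  unfold Pa
  exact ⟨fun h => (mem_filter.1 h).2, fun h => mem_filter.2 ⟨mem_univ _, h⟩⟩

/-- The vertices that the next letter has to be adjacent to. -/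
def Nx (a : Fin R) (V : Finset (Fin m)) (z : Tup m α) (Si : Finset (Pos R m × α)) : Finset (Pos R m × α) :=
  (V.image fun j => (((a, j) : Pos R m), z j)) ∪ Si

theorem card_Nx (a : Fin R) (V : Finset (Fin m)) (z : Tup m α) (Si : Finset (Pos R m × α))
    (hS : ∀ s ∈ Si, s.1.1 ≠ a) : (Nx a V z Si).card = V.card + Si.card := by
  unfold Nx
  rw [card_union_of_disjoint, card_image_of_injective]
  · intro j j' h
    simpa using (congrArg (fun x => x.1.2) h)
  · rw [disjoint_left]
    intro x hx hx'
    obtain ⟨j, _, rfl⟩ := mem_image.1 hx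
    exact hS _ hx' rfl

theorem Pa_step (E : Rel R m α) (hE : ∀ P x Q y, E P x Q y = E Q y P x) (a : Fin R) (U : Finset (Fin m))
    (al : Tup m α) (S : Fin m → Finset (Pos R m × α)) (T : Finset (Fin m)) (i : Fin m) (hiU : i ∉ U) (hiT : i ∉ T) :
    (Pa E a U al S (insert i T)).card = ∑ z ∈ Pa E a U al S T,
      (univ.filter fun c : α => ∀ u ∈ Nx a (U ∪ T) z (S i), E (a, i) c u.1 u.2 = true).card := by
  rw [← card_sigma]
  refine (card_bij (fun x _ => Function.update x.1 i x.2) ?_ ?_ ?_).symm
  · rintro ⟨z, c⟩ hx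
    rw [mem_sigma, mem_filter] at hx
    obtain ⟨hz, _, hc⟩ := hx
    simp only at hz hc
    rw [mem_Pa] at hz ⊢
    obtain ⟨h1, h2, h3⟩ := hz
    simp only
    have hne : ∀ j ∈ U ∪ T, j ≠ i := by
      rintro j hj rfl
      rcases mem_union.1 hj with h | h
      · exact hiU h
      · exact hiT h
    have hci : ∀ j ∈ U ∪ T, E (a, i) c (a, j) (z j) = true := fun j hj =>
      hc ((a, j), z j) (mem_union_left _ (mem_image_of_mem _ hj))
    refine ⟨fun j hj => ?_, fun j hj l hl hjl => ?_, fun j hj s hs => ?_⟩
    · have hji : j ≠ i := fun h => hj (h ▸ mem_insert_self i T)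
      rw [Function.update_of_ne hji]
      exact h1 j fun h => hj (mem_insert_of_mem h)
    · have hmem : ∀ j ∈ U ∪ insert i T, j = i ∨ j ∈ U ∪ T := by
        intro j hj
        rcases mem_union.1 hj with h | h
        · exact Or.inr (mem_union_left _ h)
        · rcases mem_insert.1 h with h | h
          · exact Or.inl h
          · exact Or.inr (mem_union_right _ h)
      rcases hmem j hj with rfl | hj' <;> rcases hmem l hl with rfl | hl'
      · exact absurd rfl hjl
      · rw [Function.update_self, Function.update_of_ne (hne l hl')]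
        exact hci l hl'
      · rw [Function.update_self, Function.update_of_ne (hne j hj'), hE]
        exact hci j hj'
      · rw [Function.update_of_ne (hne l hl'), Function.update_of_ne (hne j hj')]
        exact h2 j hj' l hl' hjl
    · rcases mem_insert.1 hj with rfl | hj'
      · rw [Function.update_self]
        exact hc s (mem_union_right _ hs)
      · have hji : j ≠ i := by
          rintro rfl
          exact hiT hj'
        rw [Function.update_of_ne hji]
        exact h3 j hj' s hs
  · rintro ⟨z, c⟩ hx ⟨z', c'⟩ hx' h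
    rw [mem_sigma] at hx hx'
    simp only at h hx hx'
    rw [mem_Pa] at hx hx'
    have h1 : c = c' := by
      have := congrFun h i
      simpa using this
    have h2 : z = z' := by
      funext j
      by_cases hj : j = i
      · subst hj
        rw [hx.1.1 j hiT, hx'.1.1 j hiT]
      · have := congrFun h j
        simpa [Function.update_of_ne hj] using this
    subst h1 h2
    rfl
  · intro z hz
    rw [mem_Pa] at hz
    obtain ⟨h1, h2, h3⟩ := hz
    refine ⟨⟨Function.update z i (al i), z i⟩, ?_, ?_⟩
    · have hne : ∀ j ∈ U ∪ T, j ≠ i := by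
        rintro j hj rfl
        rcases mem_union.1 hj with h | h
        · exact hiU h
        · exact hiT h
      have hsub : ∀ j ∈ U ∪ T, j ∈ U ∪ insert i T := by
        intro j hj
        rcases mem_union.1 hj with h | h
        · exact mem_union_left _ h
        · exact mem_union_right _ (mem_insert_of_mem h)
      rw [mem_sigma, mem_filter]
      refine ⟨?_, mem_univ _, ?_⟩
      · rw [mem_Pa]
        simp only
        refine ⟨fun j hj => ?_, fun j hj l hl hjl => ?_, fun j hj s hs => ?_⟩
        · by_cases hji : j = i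
          · subst hji
            rw [Function.update_self]
          · rw [Function.update_of_ne hji]
            refine h1 j fun h => ?_
            rcases mem_insert.1 h with h | h
            · exact hji h
            · exact hj h
        · rw [Function.update_of_ne (hne l hl), Function.update_of_ne (hne j hj)]
          exact h2 j (hsub j hj) l (hsub l hl) hjl
        · have hji : j ≠ i := by
            rintro rfl
            exact hiT hj
          rw [Function.update_of_ne hji]
          exact h3 j (mem_insert_of_mem hj) s hs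
      · simp only
        intro u hu
        unfold Nx at hu
        rcases mem_union.1 hu with h | h
        · obtain ⟨j, hj, rfl⟩ := mem_image.1 h
          simp only
          rw [Function.update_of_ne (hne j hj)]
          exact h2 i (mem_union_right _ (mem_insert_self i T)) j (hsub j hj) (fun h => hne j hj h.symm)
        · exact h3 i (mem_insert_self i T) u h
    · simp only
      funext j
      by_cases hj : j = i
      · subst hj
        rw [Function.update_self]
      · rw [Function.update_of_ne hj, Function.update_of_ne hj]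

theorem Pa_empty_le (E : Rel R m α) (a : Fin R) (U : Finset (Fin m))
    (al : Tup m α) (S : Fin m → Finset (Pos R m × α)) : (Pa E a U al S ∅).card ≤ 1 := by
  rw [card_le_one]
  intro z hz z' hz'
  rw [mem_Pa] at hz hz'
  funext i
  rw [hz.1 i (notMem_empty i), hz'.1 i (notMem_empty i)]

theorem Pa_empty_pos (E : Rel R m α) (a : Fin R) (U : Finset (Fin m))
    (al : Tup m α) (S : Fin m → Finset (Pos R m × α))
    (hal : ∀ i ∈ U, ∀ j ∈ U, i ≠ j → E (a, i) (al i) (a, j) (al j) = true) : 1 ≤ (Pa E a U al S ∅).card := by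
  rw [Nat.one_le_iff_ne_zero, ← Nat.pos_iff_ne_zero, card_pos]
  refine ⟨al, ?_⟩
  rw [mem_Pa]
  refine ⟨fun i _ => rfl, ?_, fun i hi => absurd hi (notMem_empty i)⟩
  rw [union_empty]
  exact hal

theorem choose_step (u : ℕ) : (u + 1).choose 2 = u.choose 2 + u := by
  rw [Nat.choose_succ_succ' u 1, Nat.choose_one_right, add_comm]

theorem Pa_bounds (E : Rel R m α) (hE : ∀ P x Q y, E P x Q y = E Q y P x) (p : ℝ) (hp : 0 ≤ p) (s : ℕ)
    (hR : REG E p s) (a : Fin R) (U : Finset (Fin m)) (al : Tup m α) (S : Fin m → Finset (Pos R m × α))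
    (hSa : ∀ i, ∀ u ∈ S i, u.1.1 ≠ a) (hSs : ∀ i, (S i).card + m ≤ s) (T : Finset (Fin m)) (hUT : Disjoint U T) :
    ((Pa E a U al S T).card : ℝ) * p ^ (U.card.choose 2) ≤
      8 ^ T.card * ((Fintype.card α : ℝ) ^ T.card * p ^ ((U.card + T.card).choose 2 + ∑ i ∈ T, (S i).card)) ∧
    ((∀ i ∈ U, ∀ j ∈ U, i ≠ j → E (a, i) (al i) (a, j) (al j) = true) →
      (Fintype.card α : ℝ) ^ T.card * p ^ ((U.card + T.card).choose 2 + ∑ i ∈ T, (S i).card) ≤
        8 ^ T.card * (((Pa E a U al S T).card : ℝ) * p ^ (U.card.choose 2))) := by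
  induction T using Finset.induction_on with
  | empty =>
    refine ⟨?_, fun hal => ?_⟩
    · have h1 := Pa_empty_le E a U al S
      have h2 : ((Pa E a U al S ∅).card : ℝ) ≤ 1 := by exact_mod_cast h1
      simp only [card_empty, pow_zero, one_mul, add_zero, sum_empty]
      nlinarith [pow_nonneg hp (U.card.choose 2)]
    · have h1 := Pa_empty_pos E a U al S hal
      have h2 : (1 : ℝ) ≤ ((Pa E a U al S ∅).card : ℝ) := by exact_mod_cast h1
      simp only [card_empty, pow_zero, one_mul, add_zero, sum_empty]
      nlinarith [pow_nonneg hp (U.card.choose 2)]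
  | insert i T hiT ih =>
    have hiU : i ∉ U := fun h => disjoint_left.1 hUT h (mem_insert_self i T)
    have hUT' : Disjoint U T := hUT.mono_right (subset_insert i T)
    obtain ⟨ih1, ih2⟩ := ih hUT'
    have hcard : ∀ z : Tup m α, (Nx a (U ∪ T) z (S i)).card = U.card + T.card + (S i).card := by
      intro z
      rw [card_Nx a _ z _ (hSa i), card_union_of_disjoint hUT']
    have hle : U.card + T.card ≤ m := by
      rw [← card_union_of_disjoint hUT']
      exact (card_le_univ _).trans (by rw [Fintype.card_fin])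
    have hreg : ∀ z : Tup m α, (Fintype.card α : ℝ) * p ^ (U.card + T.card + (S i).card) / 8 ≤
        ((univ.filter fun c : α => ∀ u ∈ Nx a (U ∪ T) z (S i), E (a, i) c u.1 u.2 = true).card : ℝ) ∧
        ((univ.filter fun c : α => ∀ u ∈ Nx a (U ∪ T) z (S i), E (a, i) c u.1 u.2 = true).card : ℝ) ≤
          8 * (Fintype.card α * p ^ (U.card + T.card + (S i).card)) := by
      intro z
      have h1 := hR (a, i) (Nx a (U ∪ T) z (S i)) (fun u hu => ?_) ?_
      · rwa [hcard z] at h1
      · unfold Nx at hu
        rcases mem_union.1 hu with h | h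
        · obtain ⟨j, hj, rfl⟩ := mem_image.1 h
          intro h2
          have h3 : j = i := by simpa using congrArg Prod.snd h2
          subst h3
          rcases mem_union.1 hj with h | h
          · exact hiU h
          · exact hiT h
        · intro h2
          exact hSa i u h (by rw [h2])
      · rw [hcard z]
        have := hSs i
        omega
    have hstep := Pa_step E hE a U al S T i hiU hiT
    have hexp : (U.card + (insert i T).card).choose 2 + ∑ j ∈ insert i T, (S j).card =
        ((U.card + T.card).choose 2 + ∑ j ∈ T, (S j).card) + (U.card + T.card + (S i).card) := by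
      rw [card_insert_of_notMem hiT, sum_insert hiT, ← add_assoc U.card T.card 1, choose_step]
      ring
    have hn : (0 : ℝ) ≤ Fintype.card α := Nat.cast_nonneg _
    set e := U.card + T.card + (S i).card with he
    set e0 := (U.card + T.card).choose 2 + ∑ j ∈ T, (S j).card with he0
    rw [hexp, card_insert_of_notMem hiT, pow_succ, pow_succ, pow_add, hstep]
    push_cast
    have hpe : 0 ≤ p ^ e := pow_nonneg hp e
    have hpU : 0 ≤ p ^ (U.card.choose 2) := pow_nonneg hp _
    refine ⟨?_, fun hal => ?_⟩
    · have h1 : ∑ z ∈ Pa E a U al S T,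
          ((univ.filter fun c : α => ∀ u ∈ Nx a (U ∪ T) z (S i), E (a, i) c u.1 u.2 = true).card : ℝ) ≤
          (Pa E a U al S T).card * (8 * (Fintype.card α * p ^ e)) := by
        rw [← nsmul_eq_mul]
        exact sum_le_card_nsmul _ _ _ fun z _ => (hreg z).2
      calc _ ≤ (Pa E a U al S T).card * (8 * (Fintype.card α * p ^ e)) * p ^ (U.card.choose 2) :=
            mul_le_mul_of_nonneg_right h1 hpU
        _ = ((Pa E a U al S T).card * p ^ (U.card.choose 2)) * (8 * (Fintype.card α * p ^ e)) := by ring
        _ ≤ (8 ^ T.card * ((Fintype.card α : ℝ) ^ T.card * p ^ e0)) * (8 * (Fintype.card α * p ^ e)) :=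
            mul_le_mul_of_nonneg_right ih1 (by positivity)
        _ = _ := by ring
    · have h1 : (Pa E a U al S T).card * (Fintype.card α * p ^ e / 8) ≤ ∑ z ∈ Pa E a U al S T,
          ((univ.filter fun c : α => ∀ u ∈ Nx a (U ∪ T) z (S i), E (a, i) c u.1 u.2 = true).card : ℝ) := by
        rw [← nsmul_eq_mul]
        exact card_nsmul_le_sum _ _ _ fun z _ => (hreg z).1
      have h2 := ih2 hal
      calc _ = ((Fintype.card α : ℝ) ^ T.card * p ^ e0) * (Fintype.card α * p ^ e) := by ring
        _ ≤ (8 ^ T.card * ((Pa E a U al S T).card * p ^ (U.card.choose 2))) * (Fintype.card α * p ^ e) :=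
            mul_le_mul_of_nonneg_right h2 (by positivity)
        _ = 8 ^ T.card * 8 * (((Pa E a U al S T).card * (Fintype.card α * p ^ e / 8)) * p ^ (U.card.choose 2)) := by
            ring
        _ ≤ _ := by
            refine mul_le_mul_of_nonneg_left (mul_le_mul_of_nonneg_right h1 hpU) (by positivity)

theorem Om_eq_Pa (E : Rel R m α) (a : Fin R) (U : Finset (Fin m)) (al : Tup m α)
    (S : Fin m → Finset (Pos R m × α)) : Om E a U al S = Pa E a U al S Uᶜ := by
  ext z
  rw [mem_Pa, union_compl]
  unfold Om X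
  rw [mem_filter, mem_filter]
  constructor
  · rintro ⟨⟨_, h1⟩, h2, h3⟩
    refine ⟨fun i hi => h2 i ?_, fun i _ j _ hij => h1 i j hij, fun i hi => h3 i (mem_compl.1 hi)⟩
    by_contra h
    exact hi (mem_compl.2 h)
  · rintro ⟨h1, h2, h3⟩
    exact ⟨⟨mem_univ _, fun i j hij => h2 i (mem_univ _) j (mem_univ _) hij⟩,
      fun i hi => h1 i fun h => (mem_compl.1 h) hi, fun i hi => h3 i (mem_compl.2 hi)⟩

/-- COUNT: the natural sets have the natural size up to a factor `8 ^ m`. -/
theorem count (E : Rel R m α) (hE : ∀ P x Q y, E P x Q y = E Q y P x) (p : ℝ) (hp : 0 ≤ p) (s : ℕ)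
    (hR : REG E p s) (a : Fin R) (U : Finset (Fin m)) (al : Tup m α) (S : Fin m → Finset (Pos R m × α))
    (hSa : ∀ i, ∀ u ∈ S i, u.1.1 ≠ a) (hSs : ∀ i, (S i).card + m ≤ s) :
    ((Om E a U al S).card : ℝ) * p ^ (U.card.choose 2) ≤
      8 ^ m * ((Fintype.card α : ℝ) ^ (m - U.card) * p ^ (m.choose 2 + ∑ i ∈ Uᶜ, (S i).card)) ∧
    ((∀ i ∈ U, ∀ j ∈ U, i ≠ j → E (a, i) (al i) (a, j) (al j) = true) →
      (Fintype.card α : ℝ) ^ (m - U.card) * p ^ (m.choose 2 + ∑ i ∈ Uᶜ, (S i).card) ≤
        8 ^ m * (((Om E a U al S).card : ℝ) * p ^ (U.card.choose 2))) := by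
  have h1 := Pa_bounds E hE p hp s hR a U al S hSa hSs Uᶜ disjoint_compl_right
  have h2 : U.card ≤ m := (card_le_univ U).trans (by rw [Fintype.card_fin])
  have h3 : Uᶜ.card = m - U.card := by rw [card_compl, Fintype.card_fin]
  rw [← Om_eq_Pa, h3, Nat.add_sub_cancel' h2] at h1
  have h8 : (8 : ℝ) ^ (m - U.card) ≤ 8 ^ m := pow_le_pow_right₀ (by norm_num) (Nat.sub_le _ _)
  refine ⟨h1.1.trans (mul_le_mul_of_nonneg_right h8 (by positivity)), fun hal =>
    (h1.2 hal).trans (mul_le_mul_of_nonneg_right h8 (by positivity))⟩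

end Pool.Agent.H82.RG
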