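import Pool.Agent.H9.KR.Bern
import Pool.Agent.H9.KR.Gnp

/-!
Project RG (helper82): enlarging a random graph by further vertices.
-/

set_option autoImplicit false
set_option linter.unusedSectionVars false

open Finset

namespace Pool.Agent.H82.RG

open Pool.Agent.H9.KR

theorem rsub_map {Ω E F : Type} [Fintype Ω] [DecidableEq E] [DecidableEq F] {w : Ω → ℝ} {R : Ω → Finset E}
    {E₀ : Finset E} {p : ℝ} (h : RSub w R E₀ p) (f : E ↪ F) :
    RSub w (fun o => (R o).map f) (E₀.map f) p := by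
  classical
  refine ⟨h.nonneg, fun A hA => ?_⟩
  obtain ⟨B, hB, rfl⟩ := subset_map_iff.1 hA
  rw [card_map, ← h.hit B hB]
  unfold pr
  refine sum_congr rfl fun o _ => ?_
  by_cases h1 : B ⊆ R o
  · rw [if_pos h1, if_pos (map_subset_map.2 h1)]
  · rw [if_neg h1, if_neg fun h2 => h1 (map_subset_map.1 h2)]

theorem rsub_restrict {Ω E : Type} [Fintype Ω] [DecidableEq E] {w : Ω → ℝ} {R : Ω → Finset E}
    {E₀ E₁ : Finset E} {p : ℝ} (h : RSub w R E₀ p) (h1 : E₁ ⊆ E₀) :
    RSub w (fun o => R o ∩ E₁) E₁ p := by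
  classical
  refine ⟨h.nonneg, fun A hA => ?_⟩
  rw [← h.hit A (hA.trans h1)]
  unfold pr
  refine sum_congr rfl fun o _ => ?_
  by_cases h2 : A ⊆ R o
  · rw [if_pos h2, if_pos (subset_inter h2 hA)]
  · rw [if_neg h2, if_neg fun h3 => h2 (h3.trans inter_subset_left)]

theorem rsub_prod {Ω₁ Ω₂ E : Type} [Fintype Ω₁] [Fintype Ω₂] [DecidableEq E] {w₁ : Ω₁ → ℝ} {w₂ : Ω₂ → ℝ}
    {R₁ : Ω₁ → Finset E} {R₂ : Ω₂ → Finset E} {E₁ E₂ : Finset E} {p : ℝ} (h₁ : RSub w₁ R₁ E₁ p)
    (h₂ : RSub w₂ R₂ E₂ p) (hR₁ : ∀ o, R₁ o ⊆ E₁) (hR₂ : ∀ o, R₂ o ⊆ E₂) (hd : Disjoint E₁ E₂) :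
    RSub (fun o : Ω₁ × Ω₂ => w₁ o.1 * w₂ o.2) (fun o => R₁ o.1 ∪ R₂ o.2) (E₁ ∪ E₂) p := by
  classical
  refine ⟨fun o => mul_nonneg (h₁.nonneg _) (h₂.nonneg _), fun A hA => ?_⟩
  have hAu : A = (A ∩ E₁) ∪ (A ∩ E₂) := by
    rw [← inter_union_distrib_left, inter_eq_left.2 hA]
  have hc : A.card = (A ∩ E₁).card + (A ∩ E₂).card := by
    conv_lhs => rw [hAu]
    exact card_union_of_disjoint (hd.mono inter_subset_right inter_subset_right)
  rw [hc, pow_add, ← h₁.hit _ inter_subset_right, ← h₂.hit _ inter_subset_right]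
  unfold pr
  rw [Finset.sum_mul_sum, ← Finset.sum_product']
  refine sum_congr rfl fun o _ => ?_
  have h3 : A ⊆ R₁ o.1 ∪ R₂ o.2 ↔ A ∩ E₁ ⊆ R₁ o.1 ∧ A ∩ E₂ ⊆ R₂ o.2 := by
    constructor
    · intro h
      refine ⟨fun e he => ?_, fun e he => ?_⟩
      · have he' := mem_inter.1 he
        rcases mem_union.1 (h he'.1) with h4 | h4
        · exact h4
        · exact absurd (hR₂ _ h4) (disjoint_left.1 hd he'.2)
      · have he' := mem_inter.1 he
        rcases mem_union.1 (h he'.1) with h4 | h4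
        · exact absurd he'.2 (disjoint_left.1 hd (hR₁ _ h4))
        · exact h4
    · rintro ⟨h4, h5⟩ e he
      rcases mem_union.1 (hA he) with h6 | h6
      · exact mem_union_left _ (h4 (mem_inter.2 ⟨he, h6⟩))
      · exact mem_union_right _ (h5 (mem_inter.2 ⟨he, h6⟩))
  by_cases h4 : A ∩ E₁ ⊆ R₁ o.1 <;> by_cases h5 : A ∩ E₂ ⊆ R₂ o.2
  · rw [if_pos (h3.2 ⟨h4, h5⟩), if_pos h4, if_pos h5]
  · rw [if_neg (fun h => h5 (h3.1 h).2), if_pos h4, if_neg h5, mul_zero]
  · rw [if_neg (fun h => h4 (h3.1 h).1), if_neg h4, zero_mul]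
  · rw [if_neg (fun h => h4 (h3.1 h).1), if_neg h4, zero_mul]

theorem pr_fst {Ω₁ Ω₂ : Type} [Fintype Ω₁] [Fintype Ω₂] {w₁ : Ω₁ → ℝ} {w₂ : Ω₂ → ℝ} (h₂ : ∑ o, w₂ o = 1)
    (P : Ω₁ → Prop) : pr (fun o : Ω₁ × Ω₂ => w₁ o.1 * w₂ o.2) (fun o => P o.1) = pr w₁ P := by
  classical
  unfold pr
  rw [Fintype.sum_prod_type]
  refine sum_congr rfl fun o _ => ?_
  by_cases h : P o
  · simp only [h, if_true]
    rw [← Finset.mul_sum, h₂, mul_one]
  · simp [h]

section graph

variable {V W : Type} [Fintype V] [DecidableEq V] [Fintype W] [DecidableEq W]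

/-- The embedding of pairs. -/
def s2 (f : V ↪ W) : Sym2 V ↪ Sym2 W := ⟨Sym2.map f, Sym2.map.injective f.injective⟩

/-- The random graph on a larger set of vertices: the pairs inside `V` come from `G`, the others from `T`. -/
noncomputable def big (f : V ↪ W) (o : SimpleGraph V × Finset (Sym2 W)) : Finset (Sym2 W) :=
  (ed o.1).map (s2 f) ∪ (o.2 ∩ (pairs W \ (pairs V).map (s2 f)))

theorem mem_big (f : V ↪ W) (o : SimpleGraph V × Finset (Sym2 W)) (u v : V) :
    s(f u, f v) ∈ big f o ↔ o.1.Adj u v := by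
  unfold big
  rw [mem_union, mem_inter, mem_sdiff]
  have h1 : s(f u, f v) = s2 f s(u, v) := rfl
  constructor
  · rintro (h | ⟨_, h2, h3⟩)
    · rw [h1, mem_map' (s2 f)] at h
      exact mem_ed.1 h
    · exfalso
      refine h3 ?_
      rw [h1, mem_map' (s2 f), mem_pairs]
      rintro rfl
      exact (mem_pairs.1 h2) rfl
  · intro h
    left
    rw [h1, mem_map' (s2 f)]
    exact mem_ed.2 h

theorem big_sub (f : V ↪ W) (o : SimpleGraph V × Finset (Sym2 W)) : big f o ⊆ pairs W := by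
  intro e he
  unfold big at he
  rcases mem_union.1 he with h | h
  · obtain ⟨e', he', rfl⟩ := mem_map.1 h
    have h2 := gnp_ed_sub o.1 he'
    induction e' using Sym2.ind with
    | _ u v =>
      have h3 : (s2 f) s(u, v) = s(f u, f v) := rfl
      rw [h3, mem_pairs]
      exact fun h4 => (mem_pairs.1 h2) (f.injective h4)
  · exact (mem_sdiff.1 (mem_inter.1 h).2).1

/-- The weights of the enlarged random graph. -/
noncomputable def bigw (V W : Type) [Fintype V] [DecidableEq V] [Fintype W] [DecidableEq W] (p : unitInterval)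
    (o : SimpleGraph V × Finset (Sym2 W)) : ℝ :=
  (SimpleGraph.binomialRandom V p).real {o.1} * ((p : ℝ) ^ o.2.card * (1 - (p : ℝ)) ^ (univ \ o.2).card)

theorem rsub_big (f : V ↪ W) (p : unitInterval) : RSub (bigw V W p) (big f) (pairs W) (p : ℝ) := by
  classical
  have h1 := rsub_map (rsub_gnp (V := V) p) (s2 f)
  have h2 := rsub_restrict (rsub_bernoulli (E := Sym2 W) (p : ℝ) p.2.1 p.2.2)
    (subset_univ (pairs W \ (pairs V).map (s2 f)))
  have hsub : (pairs V).map (s2 f) ⊆ pairs W := by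
    intro e he
    obtain ⟨e', he', rfl⟩ := mem_map.1 he
    induction e' using Sym2.ind with
    | _ u v =>
      have h3 : (s2 f) s(u, v) = s(f u, f v) := rfl
      rw [h3, mem_pairs]
      exact fun h4 => (mem_pairs.1 he') (f.injective h4)
  have h3 := rsub_prod h1 h2 (fun o => map_subset_map.2 (gnp_ed_sub o)) (fun o => inter_subset_right)
    disjoint_sdiff
  rw [union_sdiff_of_subset hsub] at h3
  exact h3

theorem pr_big (p : unitInterval) (P : SimpleGraph V → Prop) :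
    pr (bigw V W p) (fun o => P o.1) = (SimpleGraph.binomialRandom V p).real {G | P G} := by
  rw [real_eq_pr p P]
  have h1 := (rsub_bernoulli (E := Sym2 W) (p : ℝ) p.2.1 p.2.2).total
  exact pr_fst (w₁ := fun G : SimpleGraph V => (SimpleGraph.binomialRandom V p).real {G}) h1 P

end graph

end Pool.Agent.H82.RG
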