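import Pool.Agent.H49.RG.Defs

/-!
Project RG (helper82): the numbers. Everything is a power of `y = n ^ (1 / D)`, `D = 4096 R e L`.
-/

set_option autoImplicit false
set_option linter.unusedSectionVars false

open Finset

namespace Pool.Agent.H82.RG

open Pool.Agent.H49.RG

/-- The numbers. -/
noncomputable def num (R e L r n N : ℕ) (p y : ℝ) : Pool.Agent.H49.RG.Num where
  n := n
  w := R * (8 * e)
  f := 8 * e
  k := 128 * R * (e + 4)
  m0 := 2 * (e + 2)
  ψm := 32 * R * e * (8 * e + 1)
  s := 8 * L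
  r := r
  No := N
  p := p
  q := y
  β := y ^ (32 * e * L)
  h := y ^ (512 * (R * e * L))
  h1 := y ^ (16 * L)
  κ0 := 8 ^ L / y ^ (2048 * (R * e * L) * e + 512 * (R * e * L))
  Z1 := y ^ (4096 * (R * e * L) * (e + 1))
  G1 := y ^ (1024 * (R * e * L))
  Zg := y ^ (4096 * (R * e * L) * e + 1024 * (R * e * L))
  Gg := y ^ (512 * (R * e * L))
  ZS := y ^ (4096 * (R * e * L) * e + 2048 * (R * e * L))
  GS := y ^ (768 * (R * e * L))
  B := y ^ (32 * e * L)

/-- Constants absorbed by one power of `y`. -/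
theorem absorb {y : ℝ} (hy : 1 ≤ y) {c : ℝ} (hc : c ≤ y) {a b : ℕ} (h : a + 1 ≤ b) : c * y ^ a ≤ y ^ b := by
  have hy0 : 0 < y := by linarith
  calc c * y ^ a ≤ y * y ^ a := mul_le_mul_of_nonneg_right hc (pow_pos hy0 a).le
    _ = y ^ (a + 1) := by ring
    _ ≤ y ^ b := pow_le_pow_right₀ hy h

theorem num_ok (R e L r n N : ℕ) (p y C : ℝ) (hR : 1 ≤ R) (he : 1 ≤ e) (hL : 256 * R ^ 2 * e * (e + 4) ≤ L)
    (hn : (n : ℝ) = y ^ (4096 * (R * e * L))) (hp0 : 0 < p) (hp1 : p ≤ 1) (hp : 1 ≤ p * y ^ (256 * R * e))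
    (hN : (N : ℝ) ≤ C * n) (hC : 0 ≤ C)
    (y1 : 64 ≤ y) (y2 : (R : ℝ) * (8 * e) * 4 ≤ y) (y3 : (2 * (e + 2) : ℝ) ≤ y)
    (y4 : 8 * 1024 ^ L * C ≤ y) (y5 : (8 * 1024 ^ L : ℝ) ≤ y)
    (y6 : (100 * (R * (8 * e)) * 512 ^ L * 2 ^ (128 * R * (e + 4)) : ℝ) ≤ y)
    (y7 : (2 * R * 16 ^ L : ℝ) ≤ y) (y8 : (2 ^ r : ℝ) ≤ y)
    (y9 : (2 * (128 * R * (e + 4) * (R * (8 * e))) : ℝ) ≤ y) :
    (num R e L r n N p y).OK R L := by
  have hy1 : (1 : ℝ) ≤ y := by linarith
  have hy0 : (0 : ℝ) < y := by linarith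
  have hy2 : (2 : ℝ) ≤ y := by linarith
  have hy8 : (8 : ℝ) ≤ y := by linarith
  have hL1 : 1 ≤ L := by
    have : 0 < 256 * R ^ 2 * e * (e + 4) := by positivity
    omega
  -- integer facts
  have hRe : 1 ≤ R * e := Nat.mul_pos hR he
  have hReL : L ≤ R * e * L := Nat.le_mul_of_pos_left L hRe
  have heL : e * L ≤ R * e * L := by
    rw [mul_assoc]
    exact Nat.le_mul_of_pos_left _ hR
  have hLbig : 1280 * (R * (R * e)) ≤ L := by
    refine le_trans ?_ hL
    have h1 : 5 ≤ e + 4 := by omega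
    calc 1280 * (R * (R * e)) = 256 * R ^ 2 * e * 5 := by ring
      _ ≤ 256 * R ^ 2 * e * (e + 4) := Nat.mul_le_mul_left _ h1
  have hRReRe : R * e ≤ R * (R * e) := Nat.le_mul_of_pos_left _ hR
  have heRe : e ≤ R * e := Nat.le_mul_of_pos_left _ hR
  have hRRe : R ≤ R * e := Nat.le_mul_of_pos_right _ he
  have h8e : 8 * e < L := by omega
  have hE1 : 1280 ≤ R * e * L := by
    have : 1280 ≤ L := by omega
    omega
  set E := R * e * L with hE
  -- bounds for powers of p
  have hpE : ∀ j : ℕ, 1 ≤ p ^ j * y ^ (256 * R * e * j) := by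
    intro j
    rw [pow_mul, ← mul_pow]
    exact one_le_pow₀ hp
  have hppos : ∀ j : ℕ, 0 < p ^ j := fun j => pow_pos hp0 j
  have hnp4 : y ^ (3072 * E) ≤ (n : ℝ) * p ^ (4 * L) := by
    have h1 := hpE (4 * L)
    have h2 : 256 * R * e * (4 * L) = 1024 * E := by rw [hE]; ring
    rw [h2] at h1
    have h3 : (n : ℝ) = y ^ (3072 * E) * y ^ (1024 * E) := by
      rw [hn, ← pow_add]
      congr 1
      ring
    rw [h3]
    calc y ^ (3072 * E) = y ^ (3072 * E) * 1 := (mul_one _).symm
      _ ≤ y ^ (3072 * E) * (p ^ (4 * L) * y ^ (1024 * E)) :=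
          mul_le_mul_of_nonneg_left h1 (pow_pos hy0 _).le
      _ = _ := by ring
  have hnp5 : y ^ (2816 * E) ≤ (n : ℝ) * p ^ (5 * L) := by
    have h1 := hpE (5 * L)
    have h2 : 256 * R * e * (5 * L) = 1280 * E := by rw [hE]; ring
    rw [h2] at h1
    have h3 : (n : ℝ) = y ^ (2816 * E) * y ^ (1280 * E) := by
      rw [hn, ← pow_add]
      congr 1
      ring
    rw [h3]
    calc y ^ (2816 * E) = y ^ (2816 * E) * 1 := (mul_one _).symm
      _ ≤ y ^ (2816 * E) * (p ^ (5 * L) * y ^ (1280 * E)) :=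
          mul_le_mul_of_nonneg_left h1 (pow_pos hy0 _).le
      _ = _ := by ring
  have hβw : ((y ^ (32 * e * L)) ^ (8 * (R * (8 * e))) : ℝ) = y ^ (2048 * E * e) := by
    rw [← pow_mul]
    congr 1
    rw [hE]
    ring
  have hh1w : ((y ^ (16 * L)) ^ (R * (8 * e)) : ℝ) = y ^ (128 * E) := by
    rw [← pow_mul]
    congr 1
    rw [hE]
    ring
  have hh12w : ((y ^ (16 * L)) ^ (2 * (R * (8 * e))) : ℝ) = y ^ (256 * E) := by
    rw [← pow_mul]
    congr 1
    rw [hE]
    ring
  have hκ : ∀ a b : ℕ, b + (2048 * E * e + 512 * E) ≤ a →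
      y ^ b ≤ 8 ^ L / y ^ (2048 * E * e + 512 * E) * y ^ a := by
    intro a b hab
    have h1 : y ^ a = y ^ (a - (2048 * E * e + 512 * E)) * y ^ (2048 * E * e + 512 * E) := by
      rw [← pow_add]
      congr 1
      omega
    have h2 : (8 : ℝ) ^ L / y ^ (2048 * E * e + 512 * E) * y ^ a = 8 ^ L * y ^ (a - (2048 * E * e + 512 * E)) := by
      rw [h1]
      have : y ^ (2048 * E * e + 512 * E) ≠ 0 := (pow_pos hy0 _).ne'
      field_simp
    rw [h2]
    have h3 : y ^ b ≤ y ^ (a - (2048 * E * e + 512 * E)) := pow_le_pow_right₀ hy1 (by omega)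
    have h4 : (1 : ℝ) ≤ 8 ^ L := one_le_pow₀ (by norm_num)
    have h5 : 0 < y ^ (a - (2048 * E * e + 512 * E)) := pow_pos hy0 _
    nlinarith
  have hTS : ∀ g m : ℕ, 1 ≤ g → g ≤ R * (8 * e) → 1 ≤ m → m ≤ 2 * (e + 2) →
      ((num R e L r n N p y).t g m : ℝ) ≤ y ^ (4098 * (R * e) ^ 2 * (e + 2)) := by
    intro g m _ hg _ hm
    have hX : (y / p ^ g) ≤ y ^ (2049 * (R * e) ^ 2) := by
      rw [div_le_iff₀ (hppos g)]
      have h1 := hpE g
      have h2 : y ^ (256 * R * e * g) ≤ y ^ (2048 * (R * e) ^ 2) := by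
        refine pow_le_pow_right₀ hy1 ?_
        calc 256 * R * e * g ≤ 256 * R * e * (R * (8 * e)) := Nat.mul_le_mul_left _ hg
          _ = 2048 * (R * e) ^ 2 := by ring
      have h3 : y * y ^ (2048 * (R * e) ^ 2) ≤ y ^ (2049 * (R * e) ^ 2) := by
        rw [← pow_succ']
        refine pow_le_pow_right₀ hy1 ?_
        have : 1 ≤ (R * e) ^ 2 := Nat.one_le_pow _ _ hRe
        omega
      have hpg := hppos g
      calc y = y * 1 := (mul_one _).symm
        _ ≤ y * (p ^ g * y ^ (256 * R * e * g)) := mul_le_mul_of_nonneg_left h1 hy0.le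
        _ ≤ y * (p ^ g * y ^ (2048 * (R * e) ^ 2)) := by gcongr
        _ = (y * y ^ (2048 * (R * e) ^ 2)) * p ^ g := by ring
        _ ≤ _ := mul_le_mul_of_nonneg_right h3 hpg.le
    have hX0 : 0 ≤ y / p ^ g := by have := hppos g; positivity
    have hXm : (y / p ^ g) ^ m ≤ y ^ (4098 * (R * e) ^ 2 * (e + 2)) := by
      calc (y / p ^ g) ^ m ≤ (y ^ (2049 * (R * e) ^ 2)) ^ m := pow_le_pow_left₀ hX0 hX m
        _ = y ^ (2049 * (R * e) ^ 2 * m) := by rw [← pow_mul]
        _ ≤ _ := by
            refine pow_le_pow_right₀ hy1 ?_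
            calc 2049 * (R * e) ^ 2 * m ≤ 2049 * (R * e) ^ 2 * (2 * (e + 2)) := Nat.mul_le_mul_left _ hm
              _ = _ := by ring
    have h4 : ((num R e L r n N p y).t g m : ℝ) ≤ (y / p ^ g) ^ m / 2 := Nat.floor_le (by positivity)
    have h5 : 0 ≤ (y / p ^ g) ^ m := pow_nonneg hX0 m
    linarith
  have hexpo : 4098 * (R * e) ^ 2 * (e + 2) + L + 1 ≤ 32 * e * L := by
    have h1 : 256 * R ^ 2 * e * (e + 4) * (31 * e) ≤ L * (31 * e) := Nat.mul_le_mul_right _ hL
    have h2 : 4098 * (R * e) ^ 2 * (e + 2) + 1 ≤ 256 * R ^ 2 * e * (e + 4) * (31 * e) := by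
      have h3 : 1 ≤ (R * e) ^ 2 := Nat.one_le_pow _ _ hRe
      have h4 : 256 * R ^ 2 * e * (e + 4) * (31 * e) = 7936 * (R * e) ^ 2 * (e + 4) := by ring
      rw [h4]
      have h5 : 4098 * (R * e) ^ 2 * (e + 2) ≤ 7936 * (R * e) ^ 2 * (e + 2) := by
        gcongr
        norm_num
      have h6 : 7936 * (R * e) ^ 2 * (e + 4) = 7936 * (R * e) ^ 2 * (e + 2) + 15872 * (R * e) ^ 2 := by ring
      omega
    have h7 : L ≤ e * L := Nat.le_mul_of_pos_left _ he
    have h8 : L * (31 * e) = 31 * (e * L) := by ring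
    have h9 : 32 * e * L = 32 * (e * L) := by ring
    omega
  have h2qR : (2 * y ^ L) ^ R ≤ y ^ (2 * E) := by
    calc (2 * y ^ L) ^ R ≤ (y ^ (L + 1)) ^ R := by
          refine pow_le_pow_left₀ (by positivity) ?_ R
          rw [pow_succ']
          gcongr
      _ = y ^ ((L + 1) * R) := by rw [← pow_mul]
      _ ≤ _ := by
          refine pow_le_pow_right₀ hy1 ?_
          have h1 : (L + 1) * R ≤ (2 * L) * R := Nat.mul_le_mul_right _ (by omega)
          have h2 : (2 * L) * R ≤ 2 * E := by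
            rw [hE]
            calc (2 * L) * R = 2 * (R * 1 * L) := by ring
              _ ≤ 2 * (R * e * L) := by gcongr
          exact h1.trans h2
  have h2qhR : (2 * y ^ L * (y ^ (16 * L)) ^ (8 * e)) ^ R ≤ y ^ (130 * E) := by
    rw [mul_pow]
    have h1 : ((y ^ (16 * L)) ^ (8 * e)) ^ R = y ^ (128 * E) := by
      rw [← pow_mul, ← pow_mul]
      congr 1
      rw [hE]
      ring
    rw [h1]
    calc (2 * y ^ L) ^ R * y ^ (128 * E) ≤ y ^ (2 * E) * y ^ (128 * E) :=
          mul_le_mul_of_nonneg_right h2qR (pow_pos hy0 _).le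
      _ = y ^ (130 * E) := by rw [← pow_add]; congr 1; ring
  exact
    { R_pos := hR
      L_pos := hL1
      n_pos := by
        show 0 < n
        have h1 : (0 : ℝ) < n := by rw [hn]; positivity
        exact_mod_cast h1
      f_pos := by show 1 ≤ 8 * e; omega
      f_lt := h8e
      p_pos := hp0
      p_le := hp1
      q_ge := hy2
      β_ge := by
        show (16 : ℝ) ≤ y ^ (32 * e * L)
        calc (16 : ℝ) ≤ y := by linarith
          _ ≤ y ^ (32 * e * L) := le_self_pow₀ hy1 (by positivity)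
      h_ge := one_le_pow₀ hy1
      h1_ge := one_le_pow₀ hy1
      κ0_pos := by
        show (0 : ℝ) < 8 ^ L / y ^ (2048 * E * e + 512 * E)
        positivity
      B_ge := one_le_pow₀ hy1
      Z1_ge := one_le_pow₀ hy1
      G1_ge := one_le_pow₀ hy1
      m0_pos := by show 1 ≤ 2 * (e + 2); omega
      w_eq := rfl
      ψm_le := by
        show 32 * R * e * (8 * e + 1) + 6 * (R * (8 * e)) ≤ 3 * L
        have h1 : 32 * R * e * (8 * e + 1) + 6 * (R * (8 * e)) ≤ 3 * (256 * R ^ 2 * e * (e + 4)) := by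
          have h2 : 32 * R * e * (8 * e + 1) + 6 * (R * (8 * e)) = (R * e) * (256 * e + 80) := by ring
          have h3 : 3 * (256 * R ^ 2 * e * (e + 4)) = (R * e) * (768 * (R * (e + 4))) := by ring
          rw [h2, h3]
          refine Nat.mul_le_mul_left _ ?_
          have h4 : e + 4 ≤ R * (e + 4) := Nat.le_mul_of_pos_left _ hR
          omega
        omega
      s_ge := by
        show 4 * L + 128 * R * (e + 4) * (R * (8 * e)) ≤ 8 * L
        have h1 : 128 * R * (e + 4) * (R * (8 * e)) = 4 * (256 * R ^ 2 * e * (e + 4)) := by ring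
        omega
      kβ := by
        show (1 + 1 / (y ^ (32 * e * L)) ^ 2) ^ (128 * R * (e + 4) * (R * (8 * e))) ≤ (2 : ℝ)
        set K := 128 * R * (e + 4) * (R * (8 * e)) with hK
        have hKy : 2 * (K : ℝ) ≤ y := by
          rw [hK]
          push_cast
          exact y9
        have h1 : y ≤ (y ^ (32 * e * L)) ^ 2 := by
          rw [← pow_mul]
          exact le_self_pow₀ hy1 (by positivity)
        have h2 : (0 : ℝ) < (y ^ (32 * e * L)) ^ 2 := by positivity
        have h3 : (K : ℝ) * (1 / (y ^ (32 * e * L)) ^ 2) ≤ 1 / 2 := by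
          rw [mul_one_div, div_le_div_iff₀ h2 (by norm_num)]
          linarith
        calc (1 + 1 / (y ^ (32 * e * L)) ^ 2) ^ K ≤ (Real.exp (1 / (y ^ (32 * e * L)) ^ 2)) ^ K := by
              refine pow_le_pow_left₀ (by positivity) ?_ K
              have := Real.add_one_le_exp (1 / (y ^ (32 * e * L)) ^ 2)
              linarith
          _ = Real.exp (K * (1 / (y ^ (32 * e * L)) ^ 2)) := by rw [← Real.exp_nat_mul]
          _ ≤ Real.exp (1 / 2) := Real.exp_le_exp.2 h3
          _ ≤ 2 := by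
              have h4 : Real.exp (1 / 2) ^ 2 = Real.exp 1 := by
                rw [← Real.exp_nat_mul]
                norm_num
              have h5 := Real.exp_one_lt_d9
              have h6 := Real.exp_pos (1 / 2)
              nlinarith
      F1 := by
        intro g m hg1 hg hm1 hm
        show 4 * (g : ℝ) * y ^ L * (num R e L r n N p y).t g m ≤ y ^ (32 * e * L)
        have h1 := hTS g m hg1 hg hm1 hm
        have hg' : 4 * (g : ℝ) ≤ y := by
          have h2 : (g : ℝ) ≤ R * (8 * e) := by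
            have : ((g : ℕ) : ℝ) ≤ ((R * (8 * e) : ℕ) : ℝ) := by exact_mod_cast hg
            push_cast at this
            exact this
          linarith
        calc 4 * (g : ℝ) * y ^ L * (num R e L r n N p y).t g m
            ≤ 4 * (g : ℝ) * y ^ L * y ^ (4098 * (R * e) ^ 2 * (e + 2)) := by gcongr
          _ = 4 * (g : ℝ) * y ^ (4098 * (R * e) ^ 2 * (e + 2) + L) := by rw [pow_add]; ring
          _ ≤ _ := absorb hy1 hg' (by omega)
      FB := by
        intro g m hg1 hg hm1 hm
        show ((2 * (e + 2) : ℕ) : ℝ) * (num R e L r n N p y).t g m ≤ y ^ (32 * e * L)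
        have h1 := hTS g m hg1 hg hm1 hm
        push_cast
        calc (2 * ((e : ℝ) + 2)) * (num R e L r n N p y).t g m
            ≤ (2 * ((e : ℝ) + 2)) * y ^ (4098 * (R * e) ^ 2 * (e + 2)) := by gcongr
          _ ≤ _ := absorb hy1 y3 (by omega)
      F2 := by
        show 8 * 1024 ^ L * (N : ℝ) * y ^ (4096 * E * (e + 1)) ≤ (y ^ (32 * e * L)) ^ (128 * R * (e + 4))
        have h1 : ((y ^ (32 * e * L)) ^ (128 * R * (e + 4)) : ℝ) = y ^ (4096 * E * (e + 4)) := by
          rw [← pow_mul]
          congr 1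
          rw [hE]
          ring
        rw [h1]
        calc 8 * 1024 ^ L * (N : ℝ) * y ^ (4096 * E * (e + 1))
            ≤ 8 * 1024 ^ L * (C * n) * y ^ (4096 * E * (e + 1)) := by gcongr
          _ = (8 * 1024 ^ L * C) * y ^ (4096 * E * (e + 1) + 4096 * E) := by
              rw [hn, pow_add]
              ring
          _ ≤ _ := absorb hy1 y4 (by
              have h2 : 4096 * E * (e + 4) = 4096 * E * (e + 1) + 12288 * E := by ring
              omega)
      F3 := by
        show 8 * 2 ^ L * y ^ (1024 * E) * y ^ (32 * e * L) * y ^ (512 * E) ≤ n * p ^ (4 * L)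
        refine le_trans ?_ hnp4
        have h1 : (8 * 2 ^ L : ℝ) ≤ y := by
          refine le_trans ?_ y5
          have : (2 : ℝ) ^ L ≤ 1024 ^ L := pow_le_pow_left₀ (by norm_num) (by norm_num) L
          linarith
        calc 8 * 2 ^ L * y ^ (1024 * E) * y ^ (32 * e * L) * y ^ (512 * E)
            = (8 * 2 ^ L) * y ^ (1024 * E + 32 * e * L + 512 * E) := by
              rw [pow_add, pow_add]
              ring
          _ ≤ _ := absorb hy1 h1 (by
              have : 32 * e * L = 32 * (e * L) := by ring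
              omega)
      F4 := by
        show 8 * 1024 ^ L * y ^ (4096 * E * (e + 1)) * (y ^ (32 * e * L)) ^ (2 * (e + 2)) ≤
          (n * p ^ (4 * L)) ^ (2 * (e + 2))
        refine le_trans ?_ (pow_le_pow_left₀ (by positivity) hnp4 _)
        rw [← pow_mul, ← pow_mul]
        calc 8 * 1024 ^ L * y ^ (4096 * E * (e + 1)) * y ^ (32 * e * L * (2 * (e + 2)))
            = (8 * 1024 ^ L) * y ^ (4096 * E * (e + 1) + 32 * e * L * (2 * (e + 2))) := by
              rw [pow_add]
              ring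
          _ ≤ _ := absorb hy1 y5 (by
              have h1 : 32 * e * L * (2 * (e + 2)) ≤ 64 * (E * (e + 2)) := by
                calc 32 * e * L * (2 * (e + 2)) = 64 * ((e * L) * (e + 2)) := by ring
                  _ ≤ 64 * (E * (e + 2)) := by gcongr
              have h2 : 3072 * E * (2 * (e + 2)) = 6144 * (E * (e + 2)) := by ring
              have h3 : 4096 * E * (e + 1) ≤ 4096 * (E * (e + 2)) := by
                calc 4096 * E * (e + 1) = 4096 * (E * (e + 1)) := by ring
                  _ ≤ _ := by gcongr; omega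
              have h4 : 1 ≤ E * (e + 2) := Nat.mul_pos (by omega) (by omega)
              omega)
      F5 := by
        show 2 * y ^ L ≤ y ^ (16 * L)
        exact absorb hy1 hy2 (by omega)
      FZ := by
        show 2 * (y ^ (32 * e * L)) ^ (8 * (R * (8 * e))) * (y ^ (16 * L)) ^ (R * (8 * e)) ≤
          8 ^ L / y ^ (2048 * E * e + 512 * E) * y ^ (4096 * E * (e + 1))
        rw [hβw, hh1w]
        refine le_trans ?_ (hκ (4096 * E * (e + 1)) (2048 * E * e + 128 * E + 1) ?_)
        · calc 2 * y ^ (2048 * E * e) * y ^ (128 * E) = 2 * y ^ (2048 * E * e + 128 * E) := by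
                rw [pow_add]
                ring
            _ ≤ _ := absorb hy1 hy2 le_rfl
        · have h1 : 4096 * E * (e + 1) = 2048 * E * e + 2048 * E * e + 4096 * E := by ring
          omega
      FG := by
        show 8 * (y ^ (16 * L)) ^ (2 * (R * (8 * e))) ≤ y ^ (1024 * E)
        rw [hh12w]
        exact absorb hy1 hy8 (by omega)
      FZg := by
        show 2 * (y ^ (32 * e * L)) ^ (8 * (R * (8 * e))) * (y ^ (16 * L)) ^ (R * (8 * e)) ≤
          8 ^ L / y ^ (2048 * E * e + 512 * E) * y ^ (4096 * E * e + 1024 * E)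
        rw [hβw, hh1w]
        refine le_trans ?_ (hκ (4096 * E * e + 1024 * E) (2048 * E * e + 128 * E + 1) ?_)
        · calc 2 * y ^ (2048 * E * e) * y ^ (128 * E) = 2 * y ^ (2048 * E * e + 128 * E) := by
                rw [pow_add]
                ring
            _ ≤ _ := absorb hy1 hy2 le_rfl
        · have h1 : 4096 * E * e = 2048 * E * e + 2048 * E * e := by ring
          omega
      FGg := by
        show 8 * (y ^ (16 * L)) ^ (2 * (R * (8 * e))) ≤ y ^ (512 * E)
        rw [hh12w]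
        exact absorb hy1 hy8 (by omega)
      FU := by
        show 8 ^ L * (y ^ (32 * e * L)) ^ (8 * (R * (8 * e))) ≤
          8 ^ L / y ^ (2048 * E * e + 512 * E) * (y ^ (512 * E)) ^ (8 * e + 1)
        rw [hβw, ← pow_mul]
        have h1 : 512 * E * (8 * e + 1) = 2048 * E * e + (2048 * E * e + 512 * E) := by ring
        rw [h1, pow_add]
        have h2 : y ^ (2048 * E * e + 512 * E) ≠ 0 := (pow_pos hy0 _).ne'
        apply le_of_eq
        field_simp
        ring
      FΨ := by
        show 8 ^ L * (y ^ (32 * e * L)) ^ (8 * (R * (8 * e))) ≤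
          8 ^ L / y ^ (2048 * E * e + 512 * E) * (y ^ (16 * L)) ^ (32 * R * e * (8 * e + 1))
        rw [hβw, ← pow_mul]
        have h1 : 16 * L * (32 * R * e * (8 * e + 1)) = 2048 * E * e + (2048 * E * e + 512 * E) := by
          rw [hE]
          ring
        rw [h1, pow_add]
        have h2 : y ^ (2048 * E * e + 512 * E) ≠ 0 := (pow_pos hy0 _).ne'
        apply le_of_eq
        field_simp
        ring
      FC := by
        show (y ^ (32 * e * L)) ^ (8 * (R * (8 * e))) ≤
          8 ^ L / y ^ (2048 * E * e + 512 * E) * (n * p ^ (4 * L)) ^ (L - 8 * e)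
        rw [hβw]
        refine le_trans (hκ (3072 * E * (L - 8 * e)) (2048 * E * e) ?_) ?_
        · have h1 : 1280 * e - 8 * e ≤ L - 8 * e := by omega
          have h2 : 3072 * E * (1272 * e) ≤ 3072 * E * (L - 8 * e) := Nat.mul_le_mul_left _ (by omega)
          have h3 : 3072 * E * (1272 * e) = 3072 * 1272 * (E * e) := by ring
          have h4 : E ≤ E * e := Nat.le_mul_of_pos_right _ he
          have h5 : 2048 * E * e = 2048 * (E * e) := by ring
          omega
        · rw [pow_mul]
          exact mul_le_mul_of_nonneg_left (pow_le_pow_left₀ (by positivity) hnp4 _) (by positivity)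
      FE := by
        show 100 * ((R * (8 * e) : ℕ) : ℝ) * 512 ^ L * 2 ^ (128 * R * (e + 4)) *
            (y ^ (32 * e * L)) ^ (8 * (R * (8 * e))) ≤
          8 ^ L / y ^ (2048 * E * e + 512 * E) * (y ^ (32 * e * L)) ^ (2 * (128 * R * (e + 4)))
        rw [hβw]
        have h1 : ((y ^ (32 * e * L)) ^ (2 * (128 * R * (e + 4))) : ℝ) = y ^ (8192 * E * (e + 4)) := by
          rw [← pow_mul]
          congr 1
          rw [hE]
          ring
        rw [h1]
        refine le_trans ?_ (hκ (8192 * E * (e + 4)) (2048 * E * e + 1) ?_)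
        · push_cast
          exact absorb hy1 y6 le_rfl
        · have h2 : 8192 * E * (e + 4) = 8192 * (E * e) + 32768 * E := by ring
          have h3 : 2048 * E * e = 2048 * (E * e) := by ring
          omega
      F8 := by
        show 2 * (R : ℝ) * 16 ^ L * y ^ (1024 * E) * y ^ (512 * E) * (y ^ (32 * e * L)) ^ 2 ≤ n * p ^ (5 * L)
        refine le_trans ?_ hnp5
        rw [← pow_mul]
        calc 2 * (R : ℝ) * 16 ^ L * y ^ (1024 * E) * y ^ (512 * E) * y ^ (32 * e * L * 2)
            = (2 * R * 16 ^ L) * y ^ (1024 * E + 512 * E + 32 * e * L * 2) := by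
              rw [pow_add, pow_add]
              ring
          _ ≤ _ := absorb hy1 y7 (by
              have : 32 * e * L * 2 = 64 * (e * L) := by ring
              omega)
      F9 := by
        show y ^ (4096 * E * e + 1024 * E) * (2 * y ^ L) ^ R ≤ y ^ (4096 * E * e + 2048 * E)
        calc y ^ (4096 * E * e + 1024 * E) * (2 * y ^ L) ^ R ≤ y ^ (4096 * E * e + 1024 * E) * y ^ (2 * E) := by
              gcongr
          _ = y ^ (4096 * E * e + 1024 * E + 2 * E) := by rw [← pow_add]
          _ ≤ _ := pow_le_pow_right₀ hy1 (by omega)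
      F9' := by
        show y ^ (512 * E) * (2 * y ^ L * (y ^ (16 * L)) ^ (8 * e)) ^ R ≤ y ^ (768 * E)
        calc y ^ (512 * E) * (2 * y ^ L * (y ^ (16 * L)) ^ (8 * e)) ^ R ≤ y ^ (512 * E) * y ^ (130 * E) := by
              gcongr
          _ = y ^ (512 * E + 130 * E) := by rw [← pow_add]
          _ ≤ _ := pow_le_pow_right₀ hy1 (by omega)
      F10 := by
        show y ^ (4096 * E * e + 2048 * E) * 2 ^ r * (2 * y ^ L) ^ R ≤ y ^ (4096 * E * (e + 1))
        calc y ^ (4096 * E * e + 2048 * E) * 2 ^ r * (2 * y ^ L) ^ R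
            ≤ y ^ (4096 * E * e + 2048 * E) * 2 ^ r * y ^ (2 * E) := by gcongr
          _ = 2 ^ r * y ^ (4096 * E * e + 2048 * E + 2 * E) := by rw [pow_add]; ring
          _ ≤ _ := absorb hy1 y8 (by
              have : 4096 * E * (e + 1) = 4096 * E * e + 4096 * E := by ring
              omega)
      F10' := by
        show y ^ (768 * E) * 2 ^ r * (2 * y ^ L * (y ^ (16 * L)) ^ (8 * e)) ^ R ≤ y ^ (1024 * E)
        calc y ^ (768 * E) * 2 ^ r * (2 * y ^ L * (y ^ (16 * L)) ^ (8 * e)) ^ R
            ≤ y ^ (768 * E) * 2 ^ r * y ^ (130 * E) := by gcongr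
          _ = 2 ^ r * y ^ (768 * E + 130 * E) := by rw [pow_add]; ring
          _ ≤ _ := absorb hy1 y8 (by omega)
      F11 := by
        show y / p * y ^ (1024 * E) * y ^ (512 * E) ≤ n * p ^ (4 * L)
        refine le_trans ?_ hnp4
        have h1 : y / p ≤ y ^ (256 * R * e + 1) := by
          rw [div_le_iff₀ hp0]
          calc y = y * 1 := (mul_one _).symm
            _ ≤ y * (p * y ^ (256 * R * e)) := mul_le_mul_of_nonneg_left hp hy0.le
            _ = _ := by rw [pow_succ]; ring
        calc y / p * y ^ (1024 * E) * y ^ (512 * E) ≤ y ^ (256 * R * e + 1) * y ^ (1024 * E) * y ^ (512 * E) := by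
              gcongr
          _ = y ^ (256 * R * e + 1 + 1024 * E + 512 * E) := by rw [← pow_add, ← pow_add]
          _ ≤ _ := pow_le_pow_right₀ hy1 (by
              have h2 : R * e ≤ E := by
                rw [hE]
                exact Nat.le_mul_of_pos_right _ hL1
              have h3 : 256 * R * e = 256 * (R * e) := by ring
              omega)
      F12 := by
        show 2 * 8 ^ L ≤ y ^ (4096 * E * e + 2048 * E)
        have h1 : (2 * 8 ^ L : ℝ) ≤ y := by
          refine le_trans ?_ y5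
          have : (8 : ℝ) ^ L ≤ 1024 ^ L := pow_le_pow_left₀ (by norm_num) (by norm_num) L
          have : (0 : ℝ) < 8 ^ L := by positivity
          linarith
        exact h1.trans (le_self_pow₀ hy1 (by omega))
      F12' := by
        show 2 * 64 ^ L ≤ y ^ (768 * E)
        have h1 : (2 * 64 ^ L : ℝ) ≤ y := by
          refine le_trans ?_ y5
          have : (64 : ℝ) ^ L ≤ 1024 ^ L := pow_le_pow_left₀ (by norm_num) (by norm_num) L
          have : (0 : ℝ) < 64 ^ L := by positivity
          linarith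
        exact h1.trans (le_self_pow₀ hy1 (by omega)) }

end Pool.Agent.H82.RG
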